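import Pool.Agent.U497.RT.Prob

/-!
# `L = 1` for the thinned union of `K ≥ C log X` random translates of the set of the primes

Let `t_1, …, t_K` be integers in `[1, X]`, and keep each of the numbers `p + t_i`, `p` prime, with probability `1 / K`, independently. The
set of the numbers kept near `x` has the expected density `1 / log x` of the primes. For `K ≥ C(ε) log X`, and for all tuples
`(t_1, …, t_K)` with the exception of the proportion `1 / X` at most, the largest gap of this random set in `[3 X, 4 X]` is between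
`(1 - ε) (log X) ^ 2` and `(1 + ε) (log X) ^ 2`, with probability at least `1 - 2 X ^ (-ε / 8)`: this is Cramér's conjecture, with
the constant `L = 1`, for the primes averaged over `C log X` random translates.

Proof (`Pool/Agent/U497/RT`): the second moment of the number of primes in windows of length `h` (a sieve bound for pairs, averaged over the
difference) gives, by a large deviation bound for lower tails over the random tuples, that ALL the windows of length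
`(1 + ε) (log X) ^ 2` contain at least the expected number of the `p + t_i`; the prime number theorem bounds the average number from
above, and this suffices for empty windows of length `(1 - ε) (log X) ^ 2`.
-/

set_option autoImplicit false

namespace Pool.Agent.Results.MP_62ce35_nt.LargestGapOfTranslates

open MeasureTheory ProbabilityTheory

/-- `E (i, p)` is the event that `p + t i` is kept: these events are independent, of probability `1 / K`. -/
structure Thinning {Ω : Type} [MeasurableSpace Ω] (μ : Measure Ω) (K : ℕ) (E : Fin K × ℕ → Set Ω) : Prop where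
  meas : ∀ x, MeasurableSet (E x)
  indep : iIndepSet E μ
  law : ∀ x, μ.real (E x) = 1 / K

/-- The set of the numbers `p + t i`, `p` prime, which are kept. -/
def kept {Ω : Type} {K : ℕ} (t : Fin K → ℕ) (E : Fin K × ℕ → Set Ω) (ω : Ω) : Set ℕ :=
  {m : ℕ | ∃ (i : Fin K) (p : ℕ), p.Prime ∧ m = p + t i ∧ ω ∈ E (i, p)}

/-- `Q` has no element in the window `(n, n + h]`. -/
def EmptyWindow (Q : Set ℕ) (n h : ℕ) : Prop := ∀ m ∈ Q, ¬ (n < m ∧ m ≤ n + h)

/-- With probability at least `1 - X ^ (-ε / 8)` all windows `(n, n + h]`, `3 X ≤ n ≤ 4 X`, of the length `h = ⌈(1 + ε) (log X) ^ 2⌉`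
contain a number which is kept, and with probability at least `1 - X ^ (-ε / 8)` some window `(n, n + h]` in `[3 X, 4 X]` of the length
`h = ⌊(1 - ε) (log X) ^ 2⌋` contains none. -/
def Typical (ε : ℝ) (X K : ℕ) (t : Fin K → ℕ) : Prop :=
  ∀ (Ω : Type) [MeasurableSpace Ω] (μ : Measure Ω) [IsProbabilityMeasure μ] (E : Fin K × ℕ → Set Ω), Thinning μ K E →
    μ.real {ω | ∃ n : ℕ, 3 * X ≤ n ∧ n ≤ 4 * X ∧ EmptyWindow (kept t E ω) n ⌈(1 + ε) * Real.log X ^ 2⌉₊} ≤
      (X : ℝ) ^ (-(ε / 8)) ∧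
    μ.real {ω | ¬ ∃ n : ℕ, 3 * X ≤ n ∧ n + ⌊(1 - ε) * Real.log X ^ 2⌋₊ ≤ 4 * X ∧
      EmptyWindow (kept t E ω) n ⌊(1 - ε) * Real.log X ^ 2⌋₊} ≤ (X : ℝ) ^ (-(ε / 8))

/-- **Theorem.** -/
theorem result (ε : ℝ) (hε : 0 < ε) (hε1 : ε < 1) :
    ∃ C : ℝ, 0 < C ∧ ∃ X₀ : ℕ, ∀ X K : ℕ, X₀ ≤ X → C * Real.log X ≤ K →
      ({t : Fin K → ℕ | (∀ i, 1 ≤ t i ∧ t i ≤ X) ∧ ¬ Typical ε X K t}.ncard : ℝ) ≤ (X : ℝ) ^ K / X := by
  classical
  obtain ⟨C₁, hC₁, X₁, hX₁3, h1⟩ := Pool.Agent.U497.RT.lowcount (ε / 4) (by positivity) (by linarith)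
  obtain ⟨X₂, h2⟩ := Pool.Agent.U497.RT.upprob ε hε hε1.le
  obtain ⟨C₃, hC₃, X₃, h3⟩ := Pool.Agent.U497.RT.lowprob ε hε hε1
  obtain ⟨X₄, hX₄⟩ : ∃ X₄ : ℕ, ∀ X : ℕ, X₄ ≤ X → 2 + 1 / (1 - ε) ≤ Real.log (X : ℝ) :=
    Filter.eventually_atTop.1 ((Real.tendsto_log_atTop.comp tendsto_natCast_atTop_atTop).eventually_ge_atTop _)
  refine ⟨C₁ + C₃ + 1, by positivity, X₁ + X₂ + X₃ + X₄ + 9, fun X K hX hK => ?_⟩
  have hX9 : (9 : ℝ) ≤ X := by exact_mod_cast (by omega : 9 ≤ X)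
  have hL2 := hX₄ X (by omega)
  obtain ⟨L, hL⟩ : ∃ L : ℝ, L = Real.log X := ⟨_, rfl⟩
  rw [← hL] at hL2 hK
  have hε' : 0 < 1 - ε := by linarith
  have hinv : 0 < 1 / (1 - ε) := by positivity
  have hL1 : 2 < L := by linarith
  obtain ⟨h, hh⟩ : ∃ h : ℕ, h = ⌈(1 + ε) * Real.log X ^ 2⌉₊ := ⟨_, rfl⟩
  obtain ⟨g, hg⟩ : ∃ g : ℕ, g = ⌊(1 - ε) * Real.log X ^ 2⌋₊ := ⟨_, rfl⟩
  have hh1 : (1 + ε) * L ^ 2 ≤ h := by rw [hh, hL]; exact Nat.le_ceil _
  have hh2 : (h : ℝ) < (1 + ε) * L ^ 2 + 1 := by rw [hh, hL]; exact Nat.ceil_lt_add_one (by positivity)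
  have hg1 : (g : ℝ) ≤ (1 - ε) * L ^ 2 := by rw [hg, hL]; exact Nat.floor_le (by positivity)
  have hg2 : 1 ≤ g := by
    rw [hg, ← hL]
    apply Nat.le_floor
    have h4 : 1 ≤ (1 - ε) * L := by
      calc (1 : ℝ) = (1 - ε) * (1 / (1 - ε)) := by field_simp
        _ ≤ (1 - ε) * L := by
          apply mul_le_mul_of_nonneg_left _ hε'.le
          linarith
    push_cast
    nlinarith
  have hKC : C₁ * L ≤ K ∧ C₃ ≤ K ∧ 1 ≤ (K : ℝ) := by
    refine ⟨?_, ?_, ?_⟩
    · nlinarith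
    · nlinarith
    · nlinarith
  have hlow := h1 X K h (by omega) (by rw [← hL]; exact hKC.1) (by rw [← hL]; nlinarith) (by rw [← hL]; nlinarith)
  refine le_trans ?_ hlow
  rw [← Set.ncard_coe_finset]
  refine Nat.cast_le.2 (Set.ncard_le_ncard ?_ (Finset.finite_toSet _))
  rintro t ⟨ht1, ht2⟩
  rw [Finset.mem_coe, Finset.mem_filter, Fintype.mem_piFinset]
  refine ⟨fun i => Finset.mem_Icc.2 (ht1 i), ?_⟩
  by_contra hcon
  apply ht2
  intro Ω _ μ _ E hE
  rw [← hh, ← hg]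
  constructor
  · refine le_trans (measureReal_mono ?_ (measure_ne_top _ _)) (h2 X K h t (by omega) (by exact_mod_cast hKC.2.2)
      (by rw [← hL]; exact hh1) (fun n hn1 hn2 => ?_) μ E hE.meas hE.indep hE.law)
    · rintro ω ⟨n, hn1, hn2, hn3⟩
      refine ⟨n, hn1, hn2, fun x hx hxE => ?_⟩
      rw [Pool.Agent.U497.RT.mem_blk] at hx
      exact hn3 (x.2 + t x.1) ⟨x.1, x.2, hx.1, rfl, hxE⟩ ⟨hx.2.1, hx.2.2⟩
    · by_contra hlt
      exact hcon ⟨n, hn1, hn2, not_le.1 hlt⟩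
  · refine le_trans (measureReal_mono ?_ (measure_ne_top _ _)) (h3 X K g t (by omega) hKC.2.1 hg2
      (by rw [← hL]; exact hg1) ht1 μ E hE.meas hE.indep hE.law)
    intro ω hω n hn1 hn2
    by_contra hcon2
    apply hω
    refine ⟨n, hn1, hn2, ?_⟩
    rintro m ⟨i, p, hp, rfl, hpE⟩ hm
    exact hcon2 ⟨(i, p), Pool.Agent.U497.RT.mem_blk.2 ⟨hp, hm.1, hm.2⟩, hpE⟩

end Pool.Agent.Results.MP_62ce35_nt.LargestGapOfTranslates
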