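import Pool.Agent.U607.OsLin

set_option autoImplicit false

/-!
# Record prime gaps and additive functions in the Ostrowski numeration

Let `a 0, a 1, …` be the partial quotients of a number with bounded partial quotients and
`Q 0 = 1`, `Q 1 = a 0`, `Q (k + 2) = a (k + 1) Q (k + 1) + Q k` the denominators of its convergents.
Every natural number has a greedy expansion `n = Σ d_k Q k` (the Ostrowski expansion; `a k = 1` for
all `k` gives the Zeckendorf expansion). A function `S` is additive if `S n = Σ S (d_k Q k)`; the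
values at the `d Q k`, `1 ≤ d ≤ a k`, may be prescribed arbitrarily in a finite abelian group.
-/

namespace Pool.Agent.Results.MP_62ce35_nt.OstrowskiNumeration

open Filter

/-- The denominators `Q 0 = 1`, `Q 1 = a 0`, `Q (k + 2) = a (k + 1) Q (k + 1) + Q k`. -/
def Q (a : ℕ → ℕ) : ℕ → ℕ
  | 0 => 1
  | 1 => a 0
  | (k + 2) => a (k + 1) * Q a (k + 1) + Q a k

/-- `S` is additive with respect to the greedy expansions in the numbers `Q k`. -/
def Additive {G : Type} [AddCommGroup G] (a : ℕ → ℕ) (S : ℕ → G) : Prop :=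
  ∀ k m d : ℕ, m < Q a k → d * Q a k + m < Q a (k + 1) → S (d * Q a k + m) = S (d * Q a k) + S m

/-- The elements `S (d Q j) - d S (Q j)`, `2 ≤ d ≤ a j`, and
`S (Q (j + 2)) - S (a (j + 1) Q (j + 1)) - S (Q j)` for `k ≤ j < k + w`. -/
def defects {G : Type} [AddCommGroup G] (a : ℕ → ℕ) (S : ℕ → G) (k w : ℕ) : Set G :=
  {g | (∃ j d : ℕ, k ≤ j ∧ j < k + w ∧ 2 ≤ d ∧ d ≤ a j ∧ g = S (d * Q a j) - d • S (Q a j)) ∨
    ∃ j : ℕ, k ≤ j ∧ j < k + w ∧ g = S (Q a (j + 2)) - S (a (j + 1) * Q a (j + 1)) - S (Q a j)}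

/-- `f x = log x (log₂ x)² log₄ x / (log₃ x)²` (iterated natural logarithms). -/
noncomputable def f (x : ℝ) : ℝ :=
  Real.log x * (Real.log (Real.log x)) ^ 2 * Real.log (Real.log (Real.log (Real.log x))) /
    (Real.log (Real.log (Real.log x))) ^ 2

theorem Q_eq (a : ℕ → ℕ) : ∀ k, Q a k = Pool.Agent.U607.OS.Q a k
  | 0 => rfl
  | 1 => rfl
  | (k + 2) => by
    show a (k + 1) * Q a (k + 1) + Q a k =
      a (k + 1) * Pool.Agent.U607.OS.Q a (k + 1) + Pool.Agent.U607.OS.Q a k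
    rw [Q_eq a (k + 1), Q_eq a k]

/-- **Theorem.** Let `1 ≤ a k ≤ A` for all `k`, let `S` be additive, with values in a finite abelian
group `G`, and suppose that for some `w` and all `k` the defects of `S` in the positions
`k, …, k + w - 1` generate `G`.  Let `α₁, …, α_r > 0`, `r ≥ 1`, satisfy
`|h₁ α₁ + ⋯ + h_r α_r - m| ≥ c₀ H ^ (-τ)` for all integers `m` and integers `h_j`, not all zero, with
`|h_j| ≤ H`, and let `β₁, …, β_r` be real.  For every `ε > 0` there is `κ > 0` such that for all large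
`M` and all `g ∈ G` there is an integer `n` in `(M, M + M ^ ε]` with `S n = g` such that no prime lies at
distance at most `κ f(M)` from any of the numbers `n, α₁ n + β₁, …, α_r n + β_r`. -/
theorem result {G : Type} [AddCommGroup G] [Finite G] (a : ℕ → ℕ) (A : ℕ)
    (ha : ∀ k, 1 ≤ a k ∧ a k ≤ A) (S : ℕ → G) (hS : Additive a S) (w : ℕ)
    (hw : ∀ k, AddSubgroup.closure (defects a S k w) = ⊤)
    (r : ℕ) (hr : 1 ≤ r) (α β : Fin r → ℝ) (hα : ∀ j, 0 < α j) (c₀ τ : ℝ) (hc₀ : 0 < c₀)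
    (hτ : 0 ≤ τ)
    (hdio : ∀ (H : ℕ) (h : Fin r → ℤ), h ≠ 0 → (∀ j, |h j| ≤ H) → ∀ m : ℤ,
      c₀ * (H : ℝ) ^ (-τ) ≤ |∑ j, (h j : ℝ) * α j - m|)
    (ε : ℝ) (hε : 0 < ε) :
    ∃ κ : ℝ, 0 < κ ∧ ∀ᶠ M : ℝ in atTop, ∀ g : G, ∃ n : ℕ, M < n ∧ (n : ℝ) ≤ M + M ^ ε ∧ S n = g ∧
      ∀ q : ℕ, q.Prime → κ * f M < |(q : ℝ) - n| ∧ ∀ j, κ * f M < |(q : ℝ) - (α j * n + β j)| := by
  classical
  have : Fintype G := Fintype.ofFinite G
  have hQ : Q a = Pool.Agent.U607.OS.Q a := funext (Q_eq a)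
  have hS' : Pool.Agent.U607.OS.Add a S := by
    intro k m d h1 h2
    rw [← hQ] at h1 h2 ⊢
    exact hS k m d h1 h2
  have hw' : ∀ k, AddSubgroup.closure (Pool.Agent.U607.OS.gens a S k w) = ⊤ := by
    intro k
    rw [← hw k]
    congr 1
    unfold Pool.Agent.U607.OS.gens defects
    rw [hQ]
  obtain ⟨κ, hκ, h⟩ := Pool.Agent.U607.OS.main_lin a (fun k => (ha k).1) A (fun k => (ha k).2) S hS' w hw'
    r hr α β hα c₀ τ hc₀ hτ hdio ε hε
  refine ⟨κ, hκ, ?_⟩
  filter_upwards [h] with M hM g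
  obtain ⟨n, h1, h2, h3, h4, h5⟩ := hM g
  exact ⟨n, h1, h2, h3, fun q hq => ⟨h4 q hq, fun j => h5 j q hq⟩⟩

end Pool.Agent.Results.MP_62ce35_nt.OstrowskiNumeration
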