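import Mathlib
import Pool.Agent.U451.PZ.Asy
import Pool.Agent.U451.PZ.Err
import Pool.Agent.U839.Sv.Crit3

set_option autoImplicit false

/-!
# Large gaps in random models of the primes: the Poisson law beyond `(log p)²`

Let the integers `n` be chosen independently with probability `g n / log n`, where `g = 1` (Cramér's model) or `g` is the
weight of the sieve by a finite set `S` of primes; `κ = ∏_{p ∈ S} (1 - 1/p)⁻¹` (`κ = 1` in Cramér's model). Let `b` be real
and call a chosen `n` long if the next chosen number is larger than `n + (log n)² + b log n`. The long integers are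
described completely, in distribution:

* An integer `n` is long with probability `(g n exp (-b - κ / 2) + o(1)) / (n log n)`.
* For ALL colourings of the integers by any number of colours the vector of the numbers of the long integers of
  `(M, N]` of the different colours has, up to an error `C / M` in every value, uniformly in `N` and in the
  colouring, the law of a vector of independent Poisson variables: the long integers are a Poisson process.
* If `log log N - log log M → t`, then the number of the long integers in `(M, N]` tends in law to the Poisson law with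
  parameter `exp (-b - κ / 2) t`. In particular the largest value of `(n' - n - (log n)²) / log n`, for the chosen
  `n` of `(M, N]`, `n'` the next chosen number, has in the limit the Gumbel law, with the distribution
  function `exp (- t exp (-b - κ / 2))`.

Proof. If `n` is long, nothing happens up to `n + (log n)² + b log n`, so that the probabilities `P_n (v)` of the vector `v`
of the counts in `(n, N]` satisfy an exact recursion, `P_(n-1) (v) = P_n (v) + p_n (P_(n+w) (v - e) - P_(n+w) (v))`, `w`
the length of the gap, `e` the colour of `n`. The Poisson weights satisfy it up to `O(p_n²)` (plus the mean number of long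
integers in `(n, n+w]` times `p_n`), and the recursion is a contraction for the supremum norm.
-/

open MeasureTheory ProbabilityTheory Filter Topology

namespace Pool.Agent.Results.MP_62ce35_nt.PoissonLawOfLargeGaps

/-- `g` takes only the values `0` and `κ`, and the sum of `g` over each interval of `w` consecutive
integers is `w + O(1)`. -/
def Weights (g : ℕ → ℝ) (κ : ℝ) : Prop :=
  0 < κ ∧ (∀ n, g n = 0 ∨ g n = κ) ∧ ∃ D : ℝ, ∀ n w : ℕ, |∑ m ∈ Finset.Ioc n (n + w), g m - w| ≤ D

/-- The random model: `E n` is the event that `n` is chosen; these events are independent and have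
probability `g n / log n` for all large `n`. -/
structure Model {Ω : Type*} [MeasurableSpace Ω] (μ : Measure Ω) (g : ℕ → ℝ) (E : ℕ → Set Ω) : Prop where
  meas : ∀ n, MeasurableSet (E n)
  indep : iIndepSet E μ
  law : ∀ᶠ n : ℕ in atTop, μ.real (E n) = g n / Real.log n

/-- The event that `n` is chosen and no `m` with `n < m ≤ n + (log n)² + b log n` is chosen. -/
def Long {Ω : Type*} (E : ℕ → Set Ω) (b : ℝ) (n : ℕ) : Set Ω :=
  {ω | ω ∈ E n ∧ ∀ m : ℕ, n < m → (m : ℝ) ≤ n + ((Real.log n) ^ 2 + b * Real.log n) → ω ∉ E m}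

/-- The number of the long `n` in `(M, N]` of the colour `i`. -/
noncomputable def count {Ω : Type*} {r : ℕ} (E : ℕ → Set Ω) (b : ℝ) (c : ℕ → Fin r) (M N : ℕ) (ω : Ω)
    (i : Fin r) : ℕ :=
  Set.ncard {n : ℕ | M < n ∧ n ≤ N ∧ c n = i ∧ ω ∈ Long E b n}

/-- The number of the long `n` in `(M, N]`. -/
noncomputable def total {Ω : Type*} (E : ℕ → Set Ω) (b : ℝ) (M N : ℕ) (ω : Ω) : ℕ :=
  Set.ncard {n : ℕ | M < n ∧ n ≤ N ∧ ω ∈ Long E b n}

open Classical in
/-- The expected number of the long `n` in `(M, N]` of the colour `i`. -/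
noncomputable def mean {Ω : Type*} [MeasurableSpace Ω] {r : ℕ} (μ : Measure Ω) (E : ℕ → Set Ω) (b : ℝ)
    (c : ℕ → Fin r) (M N : ℕ) (i : Fin r) : ℝ :=
  ∑ n ∈ (Finset.Ioc M N).filter (fun n => c n = i), μ.real (Long E b n)

/-- The Poisson weights. -/
noncomputable def poisson (x : ℝ) (j : ℕ) : ℝ := Real.exp (-x) * x ^ j / j.factorial

open Classical in
/-- The weights of the sieve by a finite set `S` of primes. -/
noncomputable def sieveWeight (S : Finset ℕ) (n : ℕ) : ℝ :=
  if ∀ p ∈ S, ¬ p ∣ n then ∏ p ∈ S, (1 - 1 / (p : ℝ))⁻¹ else 0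

open Pool.Agent.U451.PZ
open Pool.Agent.U839.Fb (Wt wb prodlim)
open Pool.Agent.U839.Thin (tlog)

theorem wt {g : ℕ → ℝ} {κ : ℝ} (h : Weights g κ) : ∃ D, Wt g κ 1 D := by
  obtain ⟨h1, h2, D, h3⟩ := h
  exact ⟨D, ⟨h1, one_pos, h2, fun n w => by rw [one_mul]; exact h3 n w⟩⟩

theorem long_eq {Ω : Type*} (E : ℕ → Set Ω) (b : ℝ) (n : ℕ) : Long E b n = BB E (wb 1 b) n := by
  ext ω
  unfold Long BB wb
  simp only [Set.mem_inter_iff, Set.mem_iInter, Finset.mem_Ioc, Set.mem_compl_iff]
  refine and_congr_right fun _ => ⟨fun h m hm => h m hm.1 ?_, fun h m h1 h2 => h m ⟨h1, ?_⟩⟩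
  · obtain ⟨h1, h2⟩ := hm
    have h3 : m - n ≤ ⌊((Real.log n) ^ 2 + b * Real.log n) / 1⌋₊ := by omega
    have h4 : 0 < m - n := by omega
    have h5 := (Nat.le_floor_iff' (by omega)).1 h3
    rw [div_one, Nat.cast_sub h1.le] at h5
    linarith
  · have h3 : ((m - n : ℕ) : ℝ) ≤ ((Real.log n) ^ 2 + b * Real.log n) / 1 := by
      rw [div_one, Nat.cast_sub h1.le]
      linarith
    have h4 := Nat.le_floor h3
    omega

theorem count_eq {Ω : Type*} {r : ℕ} (E : ℕ → Set Ω) (b : ℝ) (c : ℕ → Fin r) (M N : ℕ) (ω : Ω)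
    (i : Fin r) : count E b c M N ω i = cnt (BB E (wb 1 b)) c M N ω i := by
  classical
  unfold count cnt
  rw [← Set.ncard_coe_finset]
  congr 1
  ext n
  simp only [Set.mem_ofPred_eq, Finset.coe_filter, Finset.mem_Ioc, long_eq]
  tauto

theorem total_eq {Ω : Type*} (E : ℕ → Set Ω) (b : ℝ) (M N : ℕ) (ω : Ω) :
    total E b M N ω = count E b (fun _ => (0 : Fin 1)) M N ω 0 := by
  unfold total count
  congr 1
  ext n
  simp

section
variable {Ω : Type*} [MeasurableSpace Ω] {μ : Measure Ω} [IsProbabilityMeasure μ] {g : ℕ → ℝ} {κ : ℝ}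
  {E : ℕ → Set Ω}

theorem hF (hE : Model μ g E) (b : ℝ) : ∀ᶠ n : ℕ in atTop, μ.real (BB E (wb 1 b) n) =
    g n / Real.log n * ∏ m ∈ Finset.Ioc n (n + wb 1 b n), (1 - g m / Real.log m) := by
  obtain ⟨n₀, hn₀⟩ := eventually_atTop.1 hE.law
  filter_upwards [eventually_ge_atTop n₀] with n hn
  have h := Pool.Agent.U839.Sv.AA_prob hE.meas hE.indep (wb 1 b) n
  have h' : μ.real (BB E (wb 1 b) n) = μ.real (E n) * ∏ m ∈ Finset.Ioc n (n + wb 1 b n), (1 - μ.real (E m)) := h
  rw [h', hn₀ n hn]
  congr 1
  refine Finset.prod_congr rfl fun m hm => ?_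
  rw [Finset.mem_Ioc] at hm
  rw [hn₀ m (by omega)]

theorem part1 (hg : Weights g κ) (hE : Model μ g E) (b : ℝ) :
    ∃ C : ℝ, ∀ M N : ℕ, 1 ≤ M → M ≤ N → ∀ (r : ℕ) (c : ℕ → Fin r) (v : Fin r → ℕ),
      |μ.real {ω | ∀ i, count E b c M N ω i = v i} - ∏ i, poisson (mean μ E b c M N i) (v i)| ≤ C / M := by
  obtain ⟨D, hD⟩ := wt hg
  obtain ⟨C, M₁, hC, h⟩ := errsum g κ D b hD (fun n => μ.real (BB E (wb 1 b) n)) (fun n => measureReal_nonneg)
    (hF hE b)
  refine ⟨C + M₁, fun M N hM hMN r c v => ?_⟩
  have hM0 : (0 : ℝ) < M := by exact_mod_cast hM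
  have e1 : {ω | ∀ i, count E b c M N ω i = v i} = ev (BB E (wb 1 b)) c M N v := by
    ext ω
    simp only [Set.mem_ofPred_eq, ev, count_eq]
  have e2 : ∏ i, poisson (mean μ E b c M N i) (v i) = PP (fun k => μ.real (BB E (wb 1 b) k)) c M N v := by
    unfold PP
    refine Finset.prod_congr rfl fun i _ => ?_
    have : mean μ E b c M N i = par (fun k => μ.real (BB E (wb 1 b) k)) c M N i := by
      unfold mean par
      refine Finset.sum_congr rfl fun n _ => ?_
      rw [long_eq]
    rw [this]
    rfl
  rw [e1, e2]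
  by_cases hMM : M₁ ≤ M
  · refine (approx hE.meas hE.indep (wb 1 b) c N (N - M) M (by omega) v).trans ((h M N hMM).trans ?_)
    have : (0 : ℝ) ≤ M₁ := Nat.cast_nonneg _
    gcongr
    linarith
  · have h1 : μ.real (ev (BB E (wb 1 b)) c M N v) ≤ 1 := measureReal_le_one
    have h2 : 0 ≤ μ.real (ev (BB E (wb 1 b)) c M N v) := measureReal_nonneg
    have h3 : 0 ≤ PP (fun k => μ.real (BB E (wb 1 b) k)) c M N v :=
      Finset.prod_nonneg fun i _ => pois_nonneg (par_nonneg (fun _ => measureReal_nonneg) c M N i) _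
    have h4 : PP (fun k => μ.real (BB E (wb 1 b) k)) c M N v ≤ 1 :=
      Finset.prod_le_one (fun i _ => pois_nonneg (par_nonneg (fun _ => measureReal_nonneg) c M N i) _)
        fun i _ => pois_le_one (par_nonneg (fun _ => measureReal_nonneg) c M N i) _
    have h5 : (1 : ℝ) ≤ (C + M₁) / M := by
      rw [le_div_iff₀ hM0, one_mul]
      have : (M : ℝ) ≤ M₁ := by exact_mod_cast (by omega : M ≤ M₁)
      linarith
    rw [abs_le]
    constructor <;> linarith

theorem part2 (hg : Weights g κ) (hE : Model μ g E) (b : ℝ) :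
    Tendsto (fun n : ℕ => n * Real.log n * μ.real (Long E b n) - g n * Real.exp (-b - κ / 2)) atTop (𝓝 0) := by
  obtain ⟨D, hD⟩ := wt hg
  have hP := prodlim g κ 1 D b hD
  have h1 : Tendsto (fun n : ℕ => κ * |(n : ℝ) * ∏ m ∈ Finset.Ioc n (n + wb 1 b n), (1 - g m / Real.log m) -
      Real.exp (-b - κ / 2)|) atTop (𝓝 0) := by
    have := ((hP.sub_const (Real.exp (-b - κ / 2))).abs).const_mul κ
    simpa using this
  rw [tendsto_zero_iff_abs_tendsto_zero]
  refine squeeze_zero' (Eventually.of_forall fun n => abs_nonneg _) ?_ h1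
  filter_upwards [hF hE b, tlog.eventually_ge_atTop 1] with n h2 h3
  rw [Function.comp_apply, long_eq, h2]
  have hl : Real.log n ≠ 0 := by linarith
  have e : (n : ℝ) * Real.log n * (g n / Real.log n * ∏ m ∈ Finset.Ioc n (n + wb 1 b n),
      (1 - g m / Real.log m)) - g n * Real.exp (-b - κ / 2) =
      g n * ((n : ℝ) * ∏ m ∈ Finset.Ioc n (n + wb 1 b n), (1 - g m / Real.log m) - Real.exp (-b - κ / 2)) := by
    field_simp
  rw [e, abs_mul, abs_of_nonneg (hD.nonneg n)]
  have := hD.le n
  gcongr

theorem part3 (hg : Weights g κ) (hE : Model μ g E) (b t : ℝ) (M N : ℕ → ℕ) (hMN : ∀ k, M k ≤ N k)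
    (hM : Tendsto M atTop atTop)
    (ht : Tendsto (fun k => Real.log (Real.log (N k)) - Real.log (Real.log (M k))) atTop (𝓝 t)) (j : ℕ) :
    Tendsto (fun k => μ.real {ω | total E b (M k) (N k) ω = j}) atTop
      (𝓝 (poisson (Real.exp (-b - κ / 2) * t) j)) := by
  obtain ⟨D, hD⟩ := wt hg
  obtain ⟨C, hC⟩ := part1 hg hE b
  obtain ⟨lam, hlam⟩ : ∃ lam : ℕ → ℝ, lam = fun k => ∑ n ∈ Finset.Ioc (M k) (N k), μ.real (BB E (wb 1 b) n) :=
    ⟨_, rfl⟩
  have hw := window g κ D b hD (fun n => μ.real (BB E (wb 1 b) n)) (hF hE b)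
  have h1 : Tendsto lam atTop (𝓝 (Real.exp (-b - κ / 2) * t)) := by
    have h2 : Tendsto (fun k => lam k - Real.exp (-b - κ / 2) *
        (Real.log (Real.log (N k)) - Real.log (Real.log (M k)))) atTop (𝓝 0) := by
      rw [Metric.tendsto_nhds]
      intro ε hε
      obtain ⟨M₀, hM₀⟩ := hw (ε / (|t| + 3)) (by positivity)
      have h3 := Metric.tendsto_nhds.1 ht 1 one_pos
      filter_upwards [hM.eventually_ge_atTop M₀, h3] with k h4 h5
      have h6 := hM₀ (M k) (N k) h4 (hMN k)
      rw [Real.dist_eq, abs_lt] at h5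
      rw [Real.dist_eq, sub_zero, hlam]
      have h7 : |∑ n ∈ Finset.Ioc (M k) (N k), μ.real (BB E (wb 1 b) n) - Real.exp (-b - κ / 2) *
        (Real.log (Real.log (N k)) - Real.log (Real.log (M k)))| ≤ ε / (|t| + 3) *
          (1 + (Real.log (Real.log (N k)) - Real.log (Real.log (M k)))) := h6
      refine h7.trans_lt ?_
      have h8 := le_abs_self t
      have h9 : 1 + (Real.log (Real.log (N k)) - Real.log (Real.log (M k))) < |t| + 3 := by linarith [h5.2]
      have h10 : 0 < |t| + 3 := by positivity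
      calc ε / (|t| + 3) * (1 + (Real.log (Real.log (N k)) - Real.log (Real.log (M k))))
          < ε / (|t| + 3) * (|t| + 3) := by gcongr
        _ = ε := by field_simp
    have h3 := h2.add (ht.const_mul (Real.exp (-b - κ / 2)))
    rw [zero_add] at h3
    refine h3.congr fun k => ?_
    ring
  have hcont : Continuous (fun x : ℝ => poisson x j) := by
    unfold poisson
    fun_prop
  have h2 := (hcont.tendsto _).comp h1
  have h3 : Tendsto (fun k => μ.real {ω | total E b (M k) (N k) ω = j} - poisson (lam k) j) atTop (𝓝 0) := by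
    have hMr : Tendsto (fun k => C / (M k : ℝ)) atTop (𝓝 0) :=
      (tendsto_natCast_atTop_atTop.comp hM).const_div_atTop C
    rw [tendsto_zero_iff_abs_tendsto_zero]
    refine squeeze_zero' (Eventually.of_forall fun n => abs_nonneg _) ?_ hMr
    filter_upwards [hM.eventually_ge_atTop 1] with k hk
    have h4 := hC (M k) (N k) hk (hMN k) 1 (fun _ => 0) (fun _ => j)
    have e1 : {ω | ∀ i : Fin 1, count E b (fun _ => (0 : Fin 1)) (M k) (N k) ω i = j} =
        {ω | total E b (M k) (N k) ω = j} := by
      ext ω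
      simp only [Set.mem_ofPred_eq, total_eq]
      constructor
      · intro h; exact h 0
      · intro h i
        rw [Subsingleton.elim i 0]
        exact h
    have e2 : ∏ i : Fin 1, poisson (mean μ E b (fun _ => (0 : Fin 1)) (M k) (N k) i) j = poisson (lam k) j := by
      rw [Fin.prod_univ_one, hlam]
      unfold mean
      simp only [long_eq]
      rw [Finset.filter_true_of_mem (fun _ _ => trivial)]
    rw [e1, e2] at h4
    exact h4
  have h4 := h3.add h2
  rw [zero_add] at h4
  refine h4.congr fun k => ?_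
  simp

end

theorem weights_one : Weights (fun _ => 1) 1 :=
  ⟨one_pos, fun _ => Or.inr rfl, 1, Pool.Agent.U839.Sv.disc_one.2⟩

theorem weights_sieve (S : Finset ℕ) (hS : ∀ p ∈ S, p.Prime) :
    Weights (sieveWeight S) (∏ p ∈ S, (1 - 1 / (p : ℝ))⁻¹) := by
  obtain ⟨D, hD⟩ := Pool.Agent.U839.Sv.disc_sieve S hS
  refine ⟨?_, fun n => ?_, D, hD.2⟩
  · rw [Finset.prod_inv_distrib]
    exact inv_pos.2 (Pool.Agent.U839.Sv.prod_pos' hS)
  · unfold sieveWeight
    split_ifs
    · exact Or.inr rfl
    · exact Or.inl rfl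

/-- **The Poisson law of the large gaps in random models of the primes.**

Let `g` be weights with values in `{0, κ}` and mean `1` in the sense of `Weights`, and let the integers `n` be chosen
independently with probabilities `g n / log n` (for large `n`).
(1) For each real `b` there is `C` such that for all `1 ≤ M ≤ N` and all colourings `c` of the integers by `r`
colours, the probability that for every colour `i` the number of the long integers of `(M, N]` of colour `i` is `v i`
differs from the product of the Poisson probabilities (with the means of these numbers as parameters) by at most `C / M`.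
(2) The probability that `n` is long is `(g n exp (-b - κ / 2) + o(1)) / (n log n)`.
(3) If `M k → ∞` and `log log (N k) - log log (M k) → t`, then the number of the long integers of `(M k, N k]` tends in
law to the Poisson law with parameter `exp (-b - κ / 2) t`.
(4), (5) Cramér's model (`g = 1`, `κ = 1`) and the models sieved by a finite set `S` of primes
(`κ = ∏_{p ∈ S} (1 - 1/p)⁻¹`) are examples. -/
theorem result.{u} :
    (∀ (g : ℕ → ℝ) (κ : ℝ), Weights g κ →
      ∀ (Ω : Type u) [MeasurableSpace Ω] (μ : Measure Ω) [IsProbabilityMeasure μ] (E : ℕ → Set Ω),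
        Model μ g E → ∀ b : ℝ,
        (∃ C : ℝ, ∀ M N : ℕ, 1 ≤ M → M ≤ N → ∀ (r : ℕ) (c : ℕ → Fin r) (v : Fin r → ℕ),
          |μ.real {ω | ∀ i, count E b c M N ω i = v i} - ∏ i, poisson (mean μ E b c M N i) (v i)| ≤ C / M) ∧
        Tendsto (fun n : ℕ => n * Real.log n * μ.real (Long E b n) - g n * Real.exp (-b - κ / 2))
          atTop (𝓝 0) ∧
        (∀ (t : ℝ) (M N : ℕ → ℕ), (∀ k, M k ≤ N k) → Tendsto M atTop atTop →
          Tendsto (fun k => Real.log (Real.log (N k)) - Real.log (Real.log (M k))) atTop (𝓝 t) → ∀ j : ℕ,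
          Tendsto (fun k => μ.real {ω | total E b (M k) (N k) ω = j}) atTop
            (𝓝 (poisson (Real.exp (-b - κ / 2) * t) j)))) ∧
    Weights (fun _ => 1) 1 ∧
    (∀ S : Finset ℕ, (∀ p ∈ S, p.Prime) → Weights (sieveWeight S) (∏ p ∈ S, (1 - 1 / (p : ℝ))⁻¹)) :=
  ⟨fun _ _ hg _ _ _ _ _ hE b => ⟨part1 hg hE b, part2 hg hE b,
    fun t M N hMN hM ht j => part3 hg hE b t M N hMN hM ht j⟩, weights_one, weights_sieve⟩

end Pool.Agent.Results.MP_62ce35_nt.PoissonLawOfLargeGaps
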