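import Pool.Agent.U602.SM.Main

set_option autoImplicit false

/-! # Record prime gaps around several smooth functions of one member of an automatic set

Let `b ≥ 2` and let `A` be a `b`-automatic set of natural numbers (the sets `{n : b ^ k n + r ∈ A}`,
`0 ≤ r < b ^ k`, are finitely many) of positive upper Banach density. Let `f₁, …, f_r` be real
functions, twice differentiable near infinity, with `|f_j''(t)| = t ^ (c_j - 2 + o(1))` for distinct
numbers `1 ≤ c_j < 2` and with `f_j(t) ≥ t ^ τ` for some `τ > 0`; for instance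
`f_j(t) = α_j t ^ (c_j)` with `α_j > 0` and `1 < c_j < 2` (`powers` below), or `t log t`, or
`t ^ (3/2) (log t) ^ 2 - 5 t + sin t / t ^ 5`.

For every `ε > 0` there is `κ > 0` such that for all large `X` there are at least `X ^ (1 - ε)`
members `n ≤ X` of `A` such that no prime lies within `κ log X (log₂ X)² log₄ X / (log₃ X)²`
of any of the numbers `f₁(n), …, f_r(n)`.

Proof. The digits of `n` are a prefix, which leads the automaton to a recurrent state, and a block of
about `(ε₁ / log b) log X` digits. In a block the combinations `∑ h_j f_j(n) / q` are linear functions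
of the block up to a negative power of `X`, so the exponential sums are those of the automaton
(`U602/AU`, the transfer matrices contract modulo the special functions, uniformly in the frequency)
at the frequency `∑ h_j f_j'(N) / q`, where `N` is the number given by the prefix. They save a power
of `X` if no multiple `q₀ b ^ L ∑ h_j f_j'(N) / q`, `q₀` at most the number of states, is close to an
integer; since the second derivatives have distinct orders this fails for few prefixes (mean value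
theorem). The joint covering criterion `crit_scaledJ` of the starting library (`Y961/JR`, helper961)
does the rest. -/

namespace Pool.Agent.Results.MP_62ce35_nt.SmoothFunctionsOnAutomaticSets

open Filter Topology

theorem result (b : ℕ) (hb : 2 ≤ b) (A : Set ℕ)
    (hA : {B : Set ℕ | ∃ k r : ℕ, r < b ^ k ∧ B = {n : ℕ | b ^ k * n + r ∈ A}}.Finite)
    (a : ℝ) (ha : 0 < a)
    (hd : ∀ H : ℕ, ∃ u v : ℕ, u + H ≤ v ∧ a * ((v : ℝ) - u) ≤ ((A ∩ Set.Ioc u v).ncard : ℝ))
    (r : ℕ) (hr : 1 ≤ r) (c : Fin r → ℝ) (hc1 : ∀ j, 1 ≤ c j) (hc2 : ∀ j, c j < 2)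
    (hc : Function.Injective c) (f : Fin r → ℝ → ℝ)
    (hf1 : ∀ j, ∀ᶠ t : ℝ in atTop, DifferentiableAt ℝ (f j) t ∧ DifferentiableAt ℝ (deriv (f j)) t)
    (hf2 : ∀ j, ∀ σ : ℝ, 0 < σ → ∀ᶠ t : ℝ in atTop,
      t ^ (c j - 2 - σ) ≤ |deriv (deriv (f j)) t| ∧ |deriv (deriv (f j)) t| ≤ t ^ (c j - 2 + σ))
    (τ : ℝ) (hτ : 0 < τ) (hf3 : ∀ j, ∀ᶠ t : ℝ in atTop, t ^ τ ≤ f j t)
    (ε : ℝ) (hε : 0 < ε) :
    ∃ κ : ℝ, 0 < κ ∧ ∃ X₀ : ℝ, ∀ X : ℝ, X₀ ≤ X →
      X ^ (1 - ε) ≤ ({n : ℕ | n ∈ A ∧ (n : ℝ) ≤ X ∧ ∀ j, ∀ q : ℕ, q.Prime →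
        κ * (Real.log X * (Real.log (Real.log X)) ^ 2 *
          Real.log (Real.log (Real.log (Real.log X))) / (Real.log (Real.log (Real.log X))) ^ 2) <
            |(q : ℝ) - f j n|}.ncard : ℝ) := by
  classical
  obtain ⟨κ, hκ, h⟩ := Pool.Agent.U602.SM.main_kernel b hb A hA a ha (by
    intro H
    obtain ⟨u, v, huv, h⟩ := hd H
    refine ⟨u, v, huv, h.trans (le_of_eq ?_)⟩
    rw [← Set.ncard_coe_finset]
    congr 2
    ext n
    simp [and_comm]) r hr c hc1 hc2 hc f (fun j => deriv (f j)) (fun j => deriv (deriv (f j)))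
    (fun j => (hf1 j).mono fun t ht => ht.1.hasDerivAt)
    (fun j => (hf1 j).mono fun t ht => ht.2.hasDerivAt) hf2 τ hτ hf3 ε hε
  obtain ⟨X₀, hX₀⟩ := eventually_atTop.1 h
  refine ⟨κ, hκ, max X₀ 0, fun X hX => ?_⟩
  have h1 := hX₀ X ((le_max_left _ _).trans hX)
  have hX0 : 0 ≤ X := (le_max_right _ _).trans hX
  refine h1.trans (le_of_eq ?_)
  rw [← Set.ncard_coe_finset]
  congr 2
  ext n
  simp only [Finset.coe_filter, Finset.mem_range, Set.mem_ofPred_eq, Nat.lt_succ_iff,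
    Nat.le_floor_iff hX0]
  constructor
  · rintro ⟨h2, h3, h4⟩
    exact ⟨h3, h2, h4⟩
  · rintro ⟨h2, h3, h4⟩
    exact ⟨h3, h2, h4⟩

/-- the case of powers -/
theorem powers (b : ℕ) (hb : 2 ≤ b) (A : Set ℕ)
    (hA : {B : Set ℕ | ∃ k r : ℕ, r < b ^ k ∧ B = {n : ℕ | b ^ k * n + r ∈ A}}.Finite)
    (a : ℝ) (ha : 0 < a)
    (hd : ∀ H : ℕ, ∃ u v : ℕ, u + H ≤ v ∧ a * ((v : ℝ) - u) ≤ ((A ∩ Set.Ioc u v).ncard : ℝ))
    (r : ℕ) (hr : 1 ≤ r) (c α : Fin r → ℝ) (hc1 : ∀ j, 1 < c j) (hc2 : ∀ j, c j < 2)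
    (hc : Function.Injective c) (hα : ∀ j, 0 < α j) (ε : ℝ) (hε : 0 < ε) :
    ∃ κ : ℝ, 0 < κ ∧ ∃ X₀ : ℝ, ∀ X : ℝ, X₀ ≤ X →
      X ^ (1 - ε) ≤ ({n : ℕ | n ∈ A ∧ (n : ℝ) ≤ X ∧ ∀ j, ∀ q : ℕ, q.Prime →
        κ * (Real.log X * (Real.log (Real.log X)) ^ 2 *
          Real.log (Real.log (Real.log (Real.log X))) / (Real.log (Real.log (Real.log X))) ^ 2) <
            |(q : ℝ) - α j * (n : ℝ) ^ (c j)|}.ncard : ℝ) := by
  have hD1 : ∀ j, ∀ t : ℝ, 0 < t →
      HasDerivAt (fun t : ℝ => α j * t ^ (c j)) (α j * (c j * t ^ (c j - 1))) t := fun j t ht =>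
    (Real.hasDerivAt_rpow_const (Or.inl ht.ne')).const_mul _
  have hE1 : ∀ j, ∀ t : ℝ, 0 < t →
      deriv (fun t : ℝ => α j * t ^ (c j)) t = α j * (c j * t ^ (c j - 1)) :=
    fun j t ht => (hD1 j t ht).deriv
  have hD2 : ∀ j, ∀ t : ℝ, 0 < t → HasDerivAt (deriv (fun t : ℝ => α j * t ^ (c j)))
      (α j * (c j * ((c j - 1) * t ^ (c j - 2)))) t := by
    intro j t ht
    have h1 : HasDerivAt (fun t : ℝ => α j * (c j * t ^ (c j - 1)))
        (α j * (c j * ((c j - 1) * t ^ (c j - 2)))) t := by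
      have h2 := ((Real.hasDerivAt_rpow_const (x := t) (p := c j - 1)
        (Or.inl ht.ne')).const_mul (c j)).const_mul (α j)
      have h3 : c j - 1 - 1 = c j - 2 := by ring
      rwa [h3] at h2
    refine h1.congr_of_eventuallyEq ?_
    filter_upwards [lt_mem_nhds ht] with s hs
    exact hE1 j s hs
  apply result b hb A hA a ha hd r hr c (fun j => (hc1 j).le) hc2 hc
    (fun j t => α j * t ^ (c j)) ?_ ?_ (1 / 2) (by norm_num) ?_ ε hε
  · intro j
    filter_upwards [eventually_gt_atTop (0 : ℝ)] with t ht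
    exact ⟨(hD1 j t ht).differentiableAt, (hD2 j t ht).differentiableAt⟩
  · intro j σ hσ
    have h0 : 0 < α j * (c j * (c j - 1)) := by
      have := hα j
      have := hc1 j
      have : 0 < c j * (c j - 1) := mul_pos (by linarith) (by linarith)
      positivity
    filter_upwards [eventually_gt_atTop (0 : ℝ),
      Pool.Agent.W147.PS.ev_pow (c j - 2) (c j - 2 + σ) (α j * (c j * (c j - 1))) (by linarith),
      Pool.Agent.W147.PS.ev_pow (c j - 2 - σ) (c j - 2) (1 / (α j * (c j * (c j - 1))))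
        (by linarith)] with t ht h1 h2
    rw [(hD2 j t ht).deriv]
    have h3 : α j * (c j * ((c j - 1) * t ^ (c j - 2))) =
        α j * (c j * (c j - 1)) * t ^ (c j - 2) := by ring
    rw [h3, abs_of_pos (mul_pos h0 (Real.rpow_pos_of_pos ht _))]
    refine ⟨?_, h1⟩
    rw [div_mul_eq_mul_div, one_mul, div_le_iff₀ h0] at h2
    linarith
  · intro j
    filter_upwards [Pool.Agent.W147.PS.ev_pow (1 / 2) (c j) (1 / α j)
      (by linarith [hc1 j])] with t h1
    rw [div_mul_eq_mul_div, one_mul, div_le_iff₀ (hα j)] at h1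
    linarith

end Pool.Agent.Results.MP_62ce35_nt.SmoothFunctionsOnAutomaticSets
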